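import Pool.Agent.K.MP_6145c0_co.C2

set_option autoImplicit false

open Pool.Agent.P.MP_6145c0_co

/-- For every `k` some connected body with connected complement, a finite chain of closed discs,
is surrounded `k` times by congruent copies and does not tile the plane. -/
theorem Pool.Agent.Results.MP_6145c0_co.DiscChain.result :
    ∀ k : ℕ, ∃ C : Set E, IsBody C ∧ IsConnected C ∧ IsConnected Cᶜ ∧ IsDiscChain C ∧
      Surrounded C k ∧ ¬Tiles C :=
  Pool.Agent.P.MP_6145c0_co.Chain.main
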