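import Pool.Agent.P.MP_6145c0_co.Ng.Main

open Pool.Agent.Ng

/-- For each number `n` of sides there is `k` such that every simple `n`-gon that can be surrounded
`k` times by congruent copies tiles the plane. -/
theorem Pool.Agent.Results.MP_6145c0_co.Polygons.result :
    ∀ n : ℕ, 3 ≤ n → ∃ k : ℕ, ∀ C : Set ℂ, IsPolygon n C → Surrounded C k → Tiles C :=
  Pool.Agent.Ng.main
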